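import Mathlib
import Pool.Agent.H88.Om3

open Pool.Agent.H88.Om Filter Topology

theorem Pool.Agent.Results.MP_6b2627_an.No.result :
    (∃ (f : Cw Real.sqrt) (ε : ENNReal) (θ₀ : ℝ), 0 < ε ∧ θ₀ < 1 / 2 ∧
      ∀ g : Cw Real.sqrt, edist g f < ε → ∀ θ ∈ Set.Ioc θ₀ (1 / 2),
        dimSpec θ (graph g.1) < 2 - (1 / 2 - θ) / (1 - θ)) ∧
    ¬ ∀ (ω : ℝ → ℝ) (η : ℝ), ConcaveModulus ω →
      Tendsto (fun t => Real.log (ω t) / Real.log t) (𝓝[>] 0) (𝓝 η) → η < 1 →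
      {f : Cw ω | ∀ θ ∈ Set.Ioc 0 η, dimSpec θ (graph f.1) = 2 - (η - θ) / (1 - θ)} ∈
        residual (Cw ω) := by
  obtain ⟨θ₀, h1, h2⟩ := dimSpec_interval
  refine ⟨⟨f0, ENNReal.ofReal (1 / 24), θ₀, by simp, h1, h2⟩, fun h => ?_⟩
  refine not_residual ?_ (h _ (1 / 2) sqrt_modulus sqrt_log (by norm_num))
  exact fun g hg hS => (h2 g hg (1 / 2) ⟨h1, le_rfl⟩).ne (hS (1 / 2) ⟨by norm_num, le_rfl⟩)
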